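import Pool.Agent.T2H22.DQ.Run

/-! Project DQ (selections): sets of indices with bounded gaps. -/

set_option autoImplicit false

open Finset

namespace Pool.Agent.T2H22.DQ

open Classical in
/-- the selection by a set of indices -/
noncomputable def sig (𝒳 : Set ℕ) (K i : ℕ) : Finset ℕ := (Icc 1 K).filter (fun j => i + j ∈ 𝒳)

theorem sig_spec (𝒳 : Set ℕ) (k m : ℕ) (h𝒳 : ∀ i : ℕ, ∃ x ∈ 𝒳, i < x ∧ x ≤ i + m) (i : ℕ) :
    sig 𝒳 (k * m) i ⊆ Icc 1 (k * m) ∧ k ≤ (sig 𝒳 (k * m) i).card := by
  classical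
  refine ⟨filter_subset _ _, ?_⟩
  choose f hf1 hf2 hf3 using fun t : ℕ => h𝒳 (i + t * m)
  have h1 : (range k).card ≤ (sig 𝒳 (k * m) i).card := by
    apply card_le_card_of_injOn (fun t => f t - i)
    · intro t ht
      rw [mem_coe, mem_range] at ht
      have e1 := hf2 t
      have e2 := hf3 t
      have e3 : t * m + m ≤ k * m := by
        have : (t + 1) * m ≤ k * m := Nat.mul_le_mul_right m ht
        linarith [this, Nat.succ_mul t m]
      unfold sig
      rw [mem_coe, mem_filter, mem_Icc]
      simp only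
      refine ⟨⟨by omega, by omega⟩, ?_⟩
      rw [show i + (f t - i) = f t by omega]
      exact hf1 t
    · intro t _ t' _ he
      simp only at he
      have e1 := hf2 t
      have e2 := hf3 t
      have e1' := hf2 t'
      have e2' := hf3 t'
      have e4 : f t = f t' := by omega
      by_contra hne
      rcases Nat.lt_or_gt_of_ne hne with hlt | hlt
      · have : (t + 1) * m ≤ t' * m := Nat.mul_le_mul_right m hlt
        have e5 := Nat.succ_mul t m
        rw [Nat.succ_eq_add_one] at e5
        omega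
      · have : (t' + 1) * m ≤ t * m := Nat.mul_le_mul_right m hlt
        have e5 := Nat.succ_mul t' m
        rw [Nat.succ_eq_add_one] at e5
        omega
  rwa [card_range] at h1

theorem mem_sig {𝒳 : Set ℕ} {K i j : ℕ} (h : j ∈ sig 𝒳 K i) : 1 ≤ j ∧ j ≤ K ∧ i + j ∈ 𝒳 := by
  classical
  unfold sig at h
  rw [mem_filter, mem_Icc] at h
  exact ⟨h.1.1, h.1.2, h.2⟩

end Pool.Agent.T2H22.DQ
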