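import Pool.Agent.T2H22.DQ.Gen

/-! Project DQ (selections): runs of consecutive primes and differences. -/

set_option autoImplicit false

open Finset

namespace Pool.Agent.T2H22.DQ

open Pool.Agent.T2H22.AA
open Pool.Agent.T2H22.AQ
open Pool.Agent.T2H22.AD (fin_small)
open Pool.Agent.H862R2.PPSm5 (log_tendsto HH_tendsto)
open Pool.Agent.T2H22.BG (sh sh_inj)

open Classical in
/-- the number of the good runs of `K` consecutive primes -/
noncomputable def runsD (σ : ℕ → Finset ℕ) (r K C h : ℕ) : ℕ :=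
  ((range h).filter (fun i => h / 6 ≤ pr (i + 1) ∧ pr (i + K) ≤ h ∧ pr (i + K) ≤ pr (i + 1) + C ∧
    r ≤ ((σ i).filter (fun j => (pr (i + j) + h).Prime)).card)).card

open Classical in
theorem main_RD (r : ℕ) : ∃ k : ℕ, 1 ≤ k ∧ ∀ K : ℕ, k ≤ K → ∃ C D : ℕ, ∀ ε : ℝ, 0 < ε →
    ∃ X₀ : ℕ, ∀ σ : ℕ → Finset ℕ, (∀ i, σ i ⊆ Icc 1 K ∧ k ≤ (σ i).card) → ∀ X : ℕ, X₀ ≤ X →
    (((Icc 1 X).filter (fun h : ℕ => Even h ∧
      (runsD σ r K C h : ℝ) < h / Real.log h ^ D)).card : ℝ) ≤ ε * X := by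
  obtain ⟨k, hk, hmain⟩ := all_QR (r + 1)
  refine ⟨k, hk, fun K hK => ?_⟩
  obtain ⟨k2, hk2, hmain⟩ := hmain K hK
  -- the tuple
  set M0 : ℕ := (2 * k2 + 2).factorial with hM0
  have hM00 : 0 < M0 := Nat.factorial_pos _
  set S : Finset ℕ := (range k2).image (sh M0) with hS
  have hSc : S.card = k2 := by
    rw [hS, card_image_of_injective _ (sh_inj hM00), card_range]
  have hmin : ∀ a ∈ S, M0 ≤ a := by
    intro a ha
    rw [hS, mem_image] at ha
    obtain ⟨i, _, rfl⟩ := ha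
    unfold sh
    exact Nat.le_mul_of_pos_right _ (by omega)
  have hS1 : ∀ a ∈ S, 1 ≤ a := fun a ha => le_trans hM00 (hmin a ha)
  have hm0 : M0 ∈ S := by
    rw [hS, mem_image]
    refine ⟨0, mem_range.2 (by omega), ?_⟩
    unfold sh
    ring
  have hSdiv : ∀ a ∈ S, ∀ p : ℕ, p.Prime → p ≤ 2 * k2 + 2 → p ∣ a := by
    intro a ha p hp hpk
    rw [hS, mem_image] at ha
    obtain ⟨i, _, rfl⟩ := ha
    unfold sh
    exact dvd_mul_of_dvd_left ((hp.dvd_factorial).2 hpk) _
  set c0 : ℕ := S.sup id with hc0d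
  have hc0 : ∀ a ∈ S, a ≤ c0 := fun a ha => Finset.le_sup (f := id) ha
  obtain ⟨D, h⟩ := hmain S id hSc hS1 (Set.injOn_id _) hS1
  refine ⟨c0, D + 1, fun ε hε => ?_⟩
  obtain ⟨X₀, h0⟩ := h (ε / 2) (by positivity) (c0 + 1)
  obtain ⟨Xl, hXl⟩ := Filter.eventually_atTop.1 (log_tendsto.eventually_ge_atTop ((c0 : ℝ) + 1))
  set c : ℕ := max Xl (c0 + 2) with hcd
  refine ⟨max X₀ ⌈2 * (c : ℝ) / ε⌉₊, fun σ hσ X hX => ?_⟩
  have h1 := h0 (QI S M0 K σ) (sel_run hk hK hm0 hmin σ hσ) (fun n => (c0 + 1) * runsD σ r K c0 n) (by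
    intro X n hX1 hX0 hX2 hX3
    unfold gdR
    set A := (Ico (4 * X) (8 * X)).filter (fun x => (n + X ≤ x ∧ x < n + 2 * X) ∧
      r + 1 ≤ (S.filter (fun a => QI S M0 K σ (x - n) a ∧ (x + id a).Prime)).card) with hA
    set f : ℕ → ℕ := fun x => cp (x - n + M0) with hf
    -- the properties of the elements of `A`
    have hAp : ∀ x ∈ A, n + X ≤ x ∧ x < n + 2 * X ∧ f x < n ∧
        x - n + M0 ≤ pr (f x + 1) ∧ pr (f x + 1) ≤ pr (f x + K) ∧ pr (f x + K) ≤ x - n + c0 := by
      intro x hx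
      rw [hA, mem_filter, mem_Ico] at hx
      obtain ⟨⟨hx1, hx2⟩, ⟨hx3, hx4⟩, hx5⟩ := hx
      obtain ⟨a, ha⟩ : (S.filter (fun a => QI S M0 K σ (x - n) a ∧ (x + id a).Prime)).Nonempty := by
        rw [← card_pos]
        omega
      rw [mem_filter] at ha
      obtain ⟨haS, ⟨⟨j, hj, hjp⟩, hjK⟩, hap⟩ := ha
      have hj1 := mem_Icc.1 ((hσ _).1 hj)
      have e1 : f x < pr (f x + 1) := lt_pr _
      have e2 : pr (f x + 1) ≤ pr (f x + j) := pr_mono (by omega)
      have e3 := hc0 a haS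
      have e4 : pr (f x + j) = x - n + a := hjp
      refine ⟨hx3, hx4, by omega, pr_ge _ 1 le_rfl, pr_mono (by omega), hjK⟩
    have hfib : ∀ i ∈ A.image f, (A.filter (fun x => f x = i)).card ≤ c0 + 1 := by
      intro i _
      have h2 : (A.filter (fun x => f x = i)).card ≤ (Icc (pr (i + 1) - c0) (pr (i + 1))).card := by
        apply card_le_card_of_injOn (fun x => x - n)
        · intro x hx
          rw [mem_coe, mem_filter] at hx
          obtain ⟨hx1, rfl⟩ := hx
          obtain ⟨e1, e2, e3, e4, e5, e6⟩ := hAp x hx1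
          rw [mem_coe, mem_Icc]
          simp only
          omega
        · intro x hx x' hx' he
          rw [mem_coe, mem_filter] at hx hx'
          have e1 := (hAp x hx.1).1
          have e2 := (hAp x' hx'.1).1
          simp only at he
          omega
      rw [Nat.card_Icc] at h2
      omega
    refine (card_le_mul_card_image A (c0 + 1) hfib).trans ?_
    apply Nat.mul_le_mul_left
    unfold runsD
    apply card_le_card
    intro i hi
    rw [mem_image] at hi
    obtain ⟨x, hx, rfl⟩ := hi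
    obtain ⟨e1, e2, e3, e4, e5, e6⟩ := hAp x hx
    rw [mem_filter, mem_range]
    refine ⟨e3, by omega, by omega, by omega, ?_⟩
    rw [hA, mem_filter] at hx
    have h2 := hx.2.2
    refine (Nat.le_succ r).trans (h2.trans ?_)
    have h3 : S.filter (fun a => QI S M0 K σ (x - n) a ∧ (x + id a).Prime) ⊆
        ((σ (f x)).filter (fun j => (pr (f x + j) + n).Prime)).image (fun j => pr (f x + j) - (x - n)) := by
      intro a ha
      rw [mem_filter] at ha
      obtain ⟨haS, ⟨⟨j, hj, hjp⟩, hjK⟩, hap⟩ := ha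
      have hjp' : pr (f x + j) = x - n + a := hjp
      rw [mem_image]
      refine ⟨j, ?_, by rw [hjp']; omega⟩
      rw [mem_filter]
      refine ⟨hj, ?_⟩
      rw [hjp', show x - n + a + n = x + id a by simp only [id]; omega]
      exact hap
    exact (card_le_card h3).trans card_image_le) X ((le_max_left _ _).trans hX)
  refine fin_small c hε (by
    have h2 : 2 * (c : ℝ) / ε ≤ X := (Nat.le_ceil _).trans (by exact_mod_cast (le_max_right _ _).trans hX)
    rw [div_le_iff₀ hε] at h2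
    linarith) h1 ?_
  intro n hn hcn hP
  have hc1 : Xl ≤ n := (le_max_left _ _).trans hcn
  have hlog := hXl n hc1
  refine ⟨fun p hp => ?_, ?_⟩
  · obtain ⟨x, hx1, hx2⟩ := Pool.Agent.T2H22.DF.class_pT S k2 hSc.le hSdiv n hP.1 p hp
    exact ⟨x, hx2⟩
  · have hl0 : 0 < Real.log (n : ℝ) := by
      have : (0 : ℝ) ≤ c0 := Nat.cast_nonneg _
      linarith
    have hc00 : (0 : ℝ) < c0 + 1 := by positivity
    push_cast
    calc ((c0 : ℝ) + 1) * (runsD σ r K c0 n : ℝ) < (c0 + 1) * (n / Real.log n ^ (D + 1)) :=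
          mul_lt_mul_of_pos_left hP.2 hc00
      _ = ((c0 + 1) / Real.log n) * (n / Real.log n ^ D) := by
          rw [pow_succ]
          field_simp
      _ ≤ 1 * (n / Real.log n ^ D) := by
          apply mul_le_mul_of_nonneg_right _ (by positivity)
          rw [div_le_one hl0]
          exact hlog
      _ = _ := one_mul _

end Pool.Agent.T2H22.DQ
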